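import Pool.Agent.H53.HR.Targets

/-!
# MP_f2da09_co: module CZY (deletion or local complementation and deletion keeps a set connected)
-/

namespace Pool.Agent.H56.HR

open Finset Pool.Agent.H53.HR
open Pool.Agent.H53.CZD (lc LE)

private theorem czy_aux {V : Type} [DecidableEq V] {G : SimpleGraph V} {Q : Finset V} {q : V}
    (hC : Conn G Q) (hq : q ∈ Q) {S A B : Finset V} {s0 r0 : V}
    (hS : ∀ x ∈ S, ∀ y ∈ Q.erase q, y ∉ S → ¬ G.Adj x y)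
    (hs0 : s0 ∈ S) (hr0 : r0 ∉ S) (hr0Q : r0 ∈ Q.erase q) (hs0q : G.Adj s0 q)
    (hr0q : G.Adj r0 q)
    (hB : B ⊆ Q.erase q) (hBne : B.Nonempty)
    (hAB : ∀ x ∈ Q.erase q, x ∈ A ∨ x ∈ B)
    (hno : ∀ x ∈ A, ∀ y ∈ B, (G.Adj x y ↔ (G.Adj q x ∧ G.Adj q y)))
    (hsA : s0 ∈ A) (hrA : r0 ∈ A) : False := by
  have h1 : ∀ u ∈ B, ¬ G.Adj q u := by
    intro u hu hqu
    by_cases huS : u ∈ S
    · have h2 := (hno r0 hrA u hu).2 ⟨hr0q.symm, hqu⟩
      exact hS u huS r0 hr0Q hr0 h2.symm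
    · have h2 := (hno s0 hsA u hu).2 ⟨hs0q.symm, hqu⟩
      exact hS s0 hs0 u (hB hu) huS h2
  obtain ⟨x, hx, y, hy, hyB, hxy⟩ := hC.2 B (hB.trans (erase_subset _ _)) hBne (by
    intro h
    have h3 : q ∈ B := by rw [h]; exact hq
    exact (mem_erase.1 (hB h3)).1 rfl)
  by_cases hyq : y = q
  · subst hyq
    exact h1 x hx hxy.symm
  · rcases hAB y (mem_erase.2 ⟨hyq, hy⟩) with h2 | h2
    · exact h1 x hx ((hno y h2 x hx).1 hxy.symm).2
    · exact hyB h2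

theorem czy : CZY := by
  intro V _ G Q q hC hq hcard hnC
  have hne : (Q.erase q).Nonempty := by
    rw [← card_pos, card_erase_of_mem hq]
    omega
  have h1 : ∃ S ⊆ Q.erase q, S.Nonempty ∧ S ≠ Q.erase q ∧
      ∀ x ∈ S, ∀ y ∈ Q.erase q, y ∉ S → ¬ G.Adj x y := by
    by_contra h
    apply hnC
    refine ⟨hne, ?_⟩
    intro S hS hSne hSQ
    by_contra h2
    apply h
    refine ⟨S, hS, hSne, hSQ, ?_⟩
    intro x hx y hy hyS hxy
    exact h2 ⟨x, hx, y, hy, hyS, hxy⟩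
  obtain ⟨S, hSQ, hSne, hSneQ, hS⟩ := h1
  have hqS : q ∉ S := fun h => (mem_erase.1 (hSQ h)).1 rfl
  -- a neighbour of q in S
  obtain ⟨s0, hs0, y, hy, hyS, hsy⟩ := hC.2 S (hSQ.trans (erase_subset _ _)) hSne (by
    intro h
    exact hqS (by rw [h]; exact hq))
  have hyq : y = q := by
    by_contra h
    exact hS s0 hs0 y (mem_erase.2 ⟨h, hy⟩) hyS hsy
  subst hyq
  -- a neighbour of y in the rest
  have hRne : ((Q.erase y) \ S).Nonempty := by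
    rw [nonempty_iff_ne_empty]
    intro h
    rw [sdiff_eq_empty_iff_subset] at h
    exact hSneQ (Subset.antisymm hSQ h)
  obtain ⟨r0, hr0, z, hz, hzR, hrz⟩ := hC.2 ((Q.erase y) \ S)
    (sdiff_subset.trans (erase_subset _ _)) hRne (by
      intro h
      have h2 : y ∈ (Q.erase y) \ S := by rw [h]; exact hq
      exact (mem_erase.1 (mem_sdiff.1 h2).1).1 rfl)
  have hr0Q : r0 ∈ Q.erase y := (mem_sdiff.1 hr0).1
  have hr0S : r0 ∉ S := (mem_sdiff.1 hr0).2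
  have hzq : z = y := by
    by_contra h
    have h2 : z ∈ Q.erase y := mem_erase.2 ⟨h, hz⟩
    have h3 : z ∈ S := by
      by_contra h4
      exact hzR (mem_sdiff.2 ⟨h2, h4⟩)
    exact hS z h3 r0 hr0Q hr0S hrz.symm
  subst hzq
  refine ⟨hne, ?_⟩
  intro S' hS' hS'ne hS'Q
  by_contra hcon
  have hno : ∀ x ∈ S', ∀ y ∈ Q.erase z, y ∉ S' → (G.Adj x y ↔ (G.Adj z x ∧ G.Adj z y)) := by
    intro x hx y hy hyS
    by_contra h
    exact hcon ⟨x, hx, y, hy, hyS, (fun h2 => hyS (h2 ▸ hx)), h⟩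
  have hs0Q : s0 ∈ Q.erase z := hSQ hs0
  by_cases hs : s0 ∈ S' <;> by_cases hr : r0 ∈ S'
  · refine czy_aux (A := S') (B := (Q.erase z) \ S') hC hq hS hs0 hr0S hr0Q hsy hrz
      sdiff_subset ?_ ?_ ?_ hs hr
    · rw [nonempty_iff_ne_empty]
      intro h
      rw [sdiff_eq_empty_iff_subset] at h
      exact hS'Q (Subset.antisymm hS' h)
    · intro x hx
      by_cases h : x ∈ S'
      · exact Or.inl h
      · exact Or.inr (mem_sdiff.2 ⟨hx, h⟩)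
    · intro x hx y hy
      exact hno x hx y (mem_sdiff.1 hy).1 (mem_sdiff.1 hy).2
  · exact hS s0 hs0 r0 hr0Q hr0S ((hno s0 hs r0 hr0Q hr).2 ⟨hsy.symm, hrz.symm⟩)
  · exact hS s0 hs0 r0 hr0Q hr0S ((hno r0 hr s0 hs0Q hs).2 ⟨hrz.symm, hsy.symm⟩).symm
  · refine czy_aux (A := (Q.erase z) \ S') (B := S') hC hq hS hs0 hr0S hr0Q hsy hrz
      hS' hS'ne ?_ ?_ (mem_sdiff.2 ⟨hs0Q, hs⟩) (mem_sdiff.2 ⟨hr0Q, hr⟩)
    · intro x hx
      by_cases h : x ∈ S'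
      · exact Or.inr h
      · exact Or.inl (mem_sdiff.2 ⟨hx, h⟩)
    · intro x hx y hy
      have h := hno y hy x (mem_sdiff.1 hx).1 (mem_sdiff.1 hx).2
      rw [G.adj_comm x y, h, and_comm]

end Pool.Agent.H56.HR
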