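import Pool.Agent.H53.HR.Targets

/-!
# MP_f2da09_co: module LQA (basic facts on local complementations inside a set)
-/

namespace Pool.Agent.H56.HR

open Finset Pool.Agent.H53.HR
open Pool.Agent.H53.CZD (lc LE)

theorem lqa : LQA := by
  intro V Q G G' h
  refine ⟨?_, ?_, ?_, ?_⟩
  · induction h with
    | refl => exact LE.refl
    | step v hv h ih => exact LE.step v ih
  · intro Q' hQ
    induction h with
    | refl => exact LQ.refl
    | step v hv h ih => exact LQ.step v (hQ hv) ih
  · intro G'' h2
    induction h2 with
    | refl => exact h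
    | step v hv h2 ih => exact LQ.step v hv ih
  · intro r hr
    induction h with
    | refl => intro y; exact Iff.rfl
    | @step G1 v hv h ih =>
      intro y
      have h1 : ¬ G1.Adj v r := by
        intro h2
        exact hr v hv ((ih v).1 h2.symm).symm
      have h3 : (lc G1 v).Adj r y ↔ (r ≠ y ∧ ¬ (G1.Adj r y ↔ (G1.Adj v r ∧ G1.Adj v y))) := Iff.rfl
      rw [h3, ← ih y]
      constructor
      · rintro ⟨_, h4⟩
        by_contra h5
        exact h4 ⟨fun h6 => absurd h6 h5, fun h6 => absurd h6.1 h1⟩
      · intro h4
        exact ⟨h4.ne, fun h5 => h1 (h5.1 h4).1⟩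

end Pool.Agent.H56.HR
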